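import Pool.Agent.Helper27.PB.Goals
import Pool.Agent.Helper85.ZZ.BAS

/-!
# Packet BASV of project PB (`MP_b440f6_pr`): the base case
-/

open scoped ENNReal
open Finset

namespace Pool.Agent.Helper83.PB

open Pool.Agent.Helper92.Eps hiding Bas
open Pool.Agent.Helper99.ZZ
open Pool.Agent.Helper77.Eps (iv_true iv_false)
open Pool.Agent.Helper85.ZZ (iv_le RR_const)
open Pool.Agent.Helper27.PB

theorem H_snoc {B : Type} {D : ℕ} (A : Alph B D) (q : List B) (b : B) :
    A.H (q ++ [b]) = A.H q + A.h b := by
  simp [Alph.H]

/-- PACKET BASV. -/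
theorem BASV (hGSB : GSB_stmt) : BASV_stmt := by
  intro B D A τ γ hB hγ Jm r _
  have hC := hB.cal
  have hR := hB.ren
  obtain ⟨g1, -, g3, g4, -⟩ := hGSB A hC
  have hγt : ∀ t : ℕ, (1 : ℝ≥0∞) ≤ γ ^ t := fun t => one_le_pow₀ hγ
  refine ⟨?_, ?_, ?_⟩
  · intro t _
    rcases Nat.eq_zero_or_pos t with ht | ht
    · subst ht
      have h1 : GS A r (fun p => iv (Cl A r 0 p) 1) ≤ 1 := by
        have h2 : GS A r (fun p => iv (Cl A r 0 p) 1) ≤ GS A r (fun _ => 1) :=
          g4 r _ _ fun p _ _ => iv_le _
        rwa [g1 r] at h2
      rw [pow_zero, pow_zero, one_mul, mul_one]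
      calc GS A r (fun p => iv (Cl A r 0 p) 1) * A.S r ≤ 1 * A.S r := mul_le_mul' h1 le_rfl
        _ ≤ 2 * A.S r := mul_le_mul' one_le_two le_rfl
    · rcases Nat.eq_zero_or_pos r with hr | hr
      · subst hr
        have h0 : GS A 0 (fun p => iv (Cl A 0 t p) 1) = 0 := by
          unfold GS
          rw [if_pos rfl]
          refine iv_false ?_ _
          rintro (⟨h, -⟩ | ⟨-, h, -⟩)
          · omega
          · have h2 : A.H ([] : List B) = 0 := by simp [Alph.H]
            rw [h2] at h
            omega
        rw [h0, zero_mul]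
        exact zero_le
      · obtain ⟨s, rfl⟩ : ∃ s, t = s + 1 := ⟨t - 1, by omega⟩
        set y := 2 ^ s * r with hy
        have hry : r ≤ y := by
          rw [hy]
          exact Nat.le_mul_of_pos_left r (by positivity)
        have h2y : 2 ^ (s + 1) * r = y + y := by
          rw [hy, pow_succ]
          ring
        have h1 : GS A r (fun p => iv (Cl A r (s + 1) p) 1) ≤ A.Fb y * A.S r := by
          rw [g3 r _ hr]
          calc ∑ c ∈ range (r + 1), A.RR c (fun q => ∑' b, A.w b *
                iv (r < c + A.h b) (iv (Cl A r (s + 1) (q ++ [b])) 1))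
              ≤ ∑ c ∈ range (r + 1), A.RR c (fun _ => A.Fb y) := by
                refine sum_le_sum fun c hc => ?_
                have hcr : c ≤ r := Nat.lt_succ_iff.1 (mem_range.1 hc)
                refine hC.RR_mono _ _ _ fun q hq => ?_
                unfold Alph.Fb
                refine ENNReal.tsum_le_tsum fun b => ?_
                by_cases hb : y < A.h b
                · rw [iv_true hb]
                  calc A.w b * iv (r < c + A.h b) (iv (Cl A r (s + 1) (q ++ [b])) 1)
                      ≤ A.w b * 1 := mul_le_mul' le_rfl ((iv_le _).trans (iv_le _))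
                    _ = A.w b := mul_one _
                · have hcl : ¬ Cl A r (s + 1) (q ++ [b]) := by
                    rintro (⟨h, -⟩ | ⟨-, h, -⟩)
                    · omega
                    · rw [H_snoc, h2y, hq] at h
                      omega
                  rw [iv_false hcl]
                  have h0 : iv (r < c + A.h b) (0 : ℝ≥0∞) = 0 :=
                    le_antisymm (iv_le _) zero_le
                  rw [h0, mul_zero]
                  exact zero_le
            _ = A.Fb y * A.S r := by
                simp_rw [RR_const hC]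
                rw [← mul_sum]
                rfl
        have h7 : A.S (y + y) ≤ 2 * A.S y := by
          have := (hB.anti (y + y)).R7 y y le_rfl
          refine this.trans_eq ?_
          rw [two_mul]
        rw [h2y]
        calc GS A r (fun p => iv (Cl A r (s + 1) p) 1) * A.S (y + y)
            ≤ (A.Fb y * A.S r) * (2 * A.S y) := mul_le_mul' h1 h7
          _ = (A.Fb y * A.S y) * (2 * A.S r) := by ring
          _ ≤ 1 * (2 * A.S r) := mul_le_mul' (hR.R3 y) le_rfl
          _ ≤ γ ^ (s + 1) * (2 * A.S r) := mul_le_mul' (hγt _) le_rfl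
          _ = 2 * γ ^ (s + 1) * A.S r := by ring
  · have h1 : GS A r (fun p => iv (¬ Tall A r p) 1) ≤ GS A r (fun _ => 1) :=
      g4 r _ _ fun p _ _ => iv_le _
    rwa [g1 r] at h1
  · rw [one_mul]
    refine sum_le_sum fun c _ => ?_
    refine hC.RR_mono _ _ _ fun q _ => ?_
    exact iSup_le fun b => iv_le _

end Pool.Agent.Helper83.PB
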