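import Pool.Agent.Helper76.PB.GoalsV
import Pool.Agent.Helper32.PP.BNOR
import Pool.Agent.Helper16.PP.PUPR
import Pool.Agent.Helper83.REC.HRNK

/-!
# Project B (MP_fc6b1e_nt), packet PB-XLIF
-/

set_option autoImplicit false

namespace Pool.Agent.Helper83.PB

open NumberField Module IsDedekindDomain
open Pool.Agent.Helper51.RP Pool.Agent.Helper42.RD Pool.Agent.Helper42.PP Pool.Agent.Helper76.PB
open Pool.Agent.Helper40.RS (bel gw val_smul bel_smul)
open Pool.Agent.Helper40.RD (bel_of_above)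
open Pool.Agent.Helper32.PP (val_gal bel_gw norm_coe)
open scoped Pointwise

section hom

variable {F A : Type} [Field F] [AddCommGroup A] {φ : Fˣ → A}

/-- The additive homomorphism of `φ`. -/
def adh (h : Hom φ) : Additive Fˣ →+ A := AddMonoidHom.mk' (fun x ↦ φ x.toMul) fun _ _ ↦ h _ _

theorem hom_inv (h : Hom φ) (x : Fˣ) : φ x⁻¹ = -φ x := map_neg (adh h) (Additive.ofMul x)

theorem hom_pow (h : Hom φ) (x : Fˣ) (n : ℕ) : φ (x ^ n) = n • φ x :=
  map_nsmul (adh h) n (Additive.ofMul x)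

theorem hom_zpow (h : Hom φ) (x : Fˣ) (n : ℤ) : φ (x ^ n) = n • φ x :=
  map_zsmul (adh h) n (Additive.ofMul x)

theorem hom_one (h : Hom φ) : φ 1 = 0 := map_zero (adh h)

theorem hom_prod (h : Hom φ) {ι : Type} (s : Finset ι) (g : ι → Fˣ) :
    φ (∏ i ∈ s, g i) = ∑ i ∈ s, φ (g i) := by
  classical
  induction s using Finset.induction_on with
  | empty => rw [Finset.prod_empty, Finset.sum_empty, hom_one h]
  | insert a s ha ih => rw [Finset.prod_insert ha, Finset.sum_insert ha, h, ih]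

end hom

theorem hom_ordv {F : Type} [Field F] [NumberField F] (v : HeightOneSpectrum (𝓞 F)) :
    Hom fun x : Fˣ ↦ ordv v (x : F) := fun x y ↦ Pool.Agent.Helper83.REC.ordv_mul v x y

theorem ordv_of_val {F : Type} [Field F] [NumberField F] {v : HeightOneSpectrum (𝓞 F)} {x : F}
    (h : v.valuation F x = 1) : ordv v x = 0 := by
  unfold ordv
  rw [h, WithZero.log_one, neg_zero]

theorem unit_of_ordv {F : Type} [Field F] [NumberField F] {Z : Set (HeightOneSpectrum (𝓞 F))}
    {x : Fˣ} (h : ∀ v ∉ Z, ordv v (x : F) = 0) : x ∈ Z.unit F :=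
  fun v hv ↦ Pool.Agent.Helper83.REC.val_eq_one_of_ordv v x (h v hv)

section gal

variable {F E : Type} [Field F] [NumberField F] [Field E] [NumberField E] [Algebra F E]
  [IsGalois F E]

omit [NumberField F] [NumberField E] [IsGalois F E] in
theorem gw_mul (g h : E ≃ₐ[F] E) (W : HeightOneSpectrum (𝓞 E)) :
    gw (g * h) W = gw g (gw h W) := by
  apply HeightOneSpectrum.ext
  exact mul_smul g h W.asIdeal

omit [NumberField F] [NumberField E] [IsGalois F E] in
theorem gw_inv_gw (g : E ≃ₐ[F] E) (W : HeightOneSpectrum (𝓞 E)) : gw g⁻¹ (gw g W) = W := by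
  apply HeightOneSpectrum.ext
  exact inv_smul_smul g W.asIdeal

omit [NumberField F] [NumberField E] [IsGalois F E] in
theorem gw_gw_inv (g : E ≃ₐ[F] E) (W : HeightOneSpectrum (𝓞 E)) : gw g (gw g⁻¹ W) = W := by
  apply HeightOneSpectrum.ext
  exact smul_inv_smul g W.asIdeal

open Classical in
/-- The order of the decomposition group. -/
noncomputable def dec (W : HeightOneSpectrum (𝓞 E)) : ℕ :=
  (Finset.univ.filter fun g : E ≃ₐ[F] E ↦ gw g⁻¹ W = W).card

omit [IsGalois F E] in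
theorem sum_orbit (W : HeightOneSpectrum (𝓞 E)) (H : HeightOneSpectrum (𝓞 E) → ℤ) :
    ∃ k : ℤ, ∑ g : E ≃ₐ[F] E, H (gw g⁻¹ W) = (dec (F := F) W : ℤ) * k := by
  classical
  rw [Finset.sum_comp H (fun g : E ≃ₐ[F] E ↦ gw g⁻¹ W)]
  refine ⟨∑ b ∈ Finset.univ.image (fun g : E ≃ₐ[F] E ↦ gw g⁻¹ W), H b, ?_⟩
  rw [Finset.mul_sum]
  refine Finset.sum_congr rfl fun b hb ↦ ?_
  obtain ⟨g₀, -, rfl⟩ := Finset.mem_image.1 hb
  rw [nsmul_eq_mul]
  congr 2
  unfold dec
  refine Finset.card_bij (fun a _ ↦ a * g₀⁻¹) ?_ ?_ ?_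
  · intro a ha
    rw [Finset.mem_filter] at ha ⊢
    refine ⟨Finset.mem_univ _, ?_⟩
    rw [mul_inv_rev, inv_inv, gw_mul, ha.2, gw_gw_inv]
  · intro a _ b _ h
    exact mul_right_cancel h
  · intro b hb
    rw [Finset.mem_filter] at hb
    refine ⟨b * g₀, ?_, by rw [mul_inv_cancel_right]⟩
    rw [Finset.mem_filter]
    refine ⟨Finset.mem_univ _, ?_⟩
    rw [mul_inv_rev, gw_mul, hb.2]

theorem ordv_nrm {v : HeightOneSpectrum (𝓞 F)} {W : HeightOneSpectrum (𝓞 E)}
    (hu : ∀ x : F, ordv W (algebraMap F E x) = ordv v x) (y : Eˣ) :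
    ordv v ((nrm F E y : Fˣ) : F) = ∑ g : E ≃ₐ[F] E, ordv (gw g⁻¹ W) (y : E) := by
  rw [← hu, norm_coe, Pool.Agent.Helper32.PP.ordv_prod]
  · refine Finset.sum_congr rfl fun g _ ↦ ?_
    unfold ordv
    rw [val_gal]
  · intro g _
    rw [Ne, map_eq_zero_iff g g.injective]
    exact y.ne_zero

end gal

section main

variable {F E : Type} [Field F] [NumberField F] [Field E] [NumberField E] [Algebra F E]
  [IsGalois F E]

theorem exists_above (v : HeightOneSpectrum (𝓞 F)) : ∃ W : HeightOneSpectrum (𝓞 E), Above W v := by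
  obtain ⟨-, -, -, -, -, h, -⟩ := Pool.Agent.Helper16.PP.p_upr 2 F E ∅
  exact h v

omit [IsGalois F E] in
theorem notMem_upZ {Z : Set (HeightOneSpectrum (𝓞 F))} {v : HeightOneSpectrum (𝓞 F)} (hv : v ∉ Z)
    {W : HeightOneSpectrum (𝓞 E)} (hW : bel F W = v) : W ∉ upZ E Z := by
  rintro ⟨v', hv', h'⟩
  rw [← bel_of_above h', hW] at hv'
  exact hv hv'

open Classical in
theorem exists_div {Z : Set (HeightOneSpectrum (𝓞 F))} (h : PrZ F Z)
    (v : HeightOneSpectrum (𝓞 F)) :
    ∃ z : Fˣ, ∀ w ∉ Z, ordv w (z : F) = if w = v then 1 else 0 := by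
  obtain ⟨x, hx⟩ := h (Finsupp.single v 1)
  refine ⟨x, fun w hw ↦ ?_⟩
  rw [hx w hw, Finsupp.single_apply]
  by_cases h : v = w
  · rw [if_pos h, if_pos h.symm]
  · rw [if_neg h, if_neg (Ne.symm h)]

open Classical in
/-- The degree of the decomposition group kills the functional at `v`. -/
theorem dec_kill {p : ℕ} {Z : Set (HeightOneSpectrum (𝓞 F))} (hunr : UnrZ F E Z)
    (hprE : PrZ E (upZ E Z)) {f : Fˣ → ZMod p} (hf : Kil p Z f)
    (hnf : ∀ y : Eˣ, f (nrm F E y) = 0) {v : HeightOneSpectrum (𝓞 F)} (hv : v ∉ Z)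
    {W : HeightOneSpectrum (𝓞 E)} (hW : Above W v) {z : Fˣ}
    (hz : ∀ w ∉ Z, ordv w (z : F) = if w = v then 1 else 0) : (dec (F := F) W : ZMod p) * f z = 0 := by
  obtain ⟨y, hy⟩ := exists_div hprE W
  have hbW : bel F W = v := bel_of_above hW
  have h1 : ∀ v' ∉ Z, ordv v' ((nrm F E y : Fˣ) : F) = if v' = v then (dec (F := F) W : ℤ) else 0 := by
    intro v' hv'
    by_cases h : v' = v
    · rw [if_pos h, h, ordv_nrm (hunr v hv W hW)]
      have : ∀ g : E ≃ₐ[F] E, ordv (gw g⁻¹ W) (y : E) = if gw g⁻¹ W = W then 1 else 0 := fun g ↦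
        hy _ (notMem_upZ hv (by rw [bel_gw]; exact hbW))
      simp only [this]
      unfold dec
      rw [Finset.sum_ite, Finset.sum_const_zero, add_zero, Finset.sum_const, nsmul_eq_mul, mul_one]
    · rw [if_neg h]
      obtain ⟨W', hW'⟩ := exists_above (E := E) v'
      rw [ordv_nrm (hunr v' hv' W' hW')]
      refine Finset.sum_eq_zero fun g _ ↦ ?_
      have hb : bel F (gw g⁻¹ W') = v' := by rw [bel_gw]; exact bel_of_above hW'
      rw [hy _ (notMem_upZ hv' hb), if_neg]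
      intro he
      rw [he, hbW] at hb
      exact h hb.symm
  have hu : nrm F E y * (z ^ dec (F := F) W)⁻¹ ∈ Z.unit F := by
    refine unit_of_ordv fun v' hv' ↦ ?_
    have e1 := hom_ordv v' (nrm F E y) (z ^ dec (F := F) W)⁻¹
    have e2 := hom_inv (hom_ordv v') (z ^ dec (F := F) W)
    have e3 := hom_pow (hom_ordv v') z (dec (F := F) W)
    simp only at e1 e2 e3
    rw [e1, e2, e3, h1 v' hv', hz v' hv']
    split_ifs with h
    · simp
    · simp
  have h2 := hf.unit _ hu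
  rw [hf.hom, hom_inv hf.hom, hom_pow hf.hom, hnf, zero_add, neg_eq_zero, nsmul_eq_mul] at h2
  exact h2

omit [IsGalois F E] in
theorem upZ_mono {Z Z' : Set (HeightOneSpectrum (𝓞 F))} (h : Z ⊆ Z') : upZ E Z ⊆ upZ E Z' := by
  rintro W ⟨v, hv, hW⟩
  exact ⟨v, h hv, hW⟩

end main

theorem prZ_mono {F : Type} [Field F] [NumberField F] {Z Z' : Set (HeightOneSpectrum (𝓞 F))}
    (h : Z ⊆ Z') (hp : PrZ F Z) : PrZ F Z' := by
  intro n
  obtain ⟨x, hx⟩ := hp n
  exact ⟨x, fun w hw ↦ hx w fun h' ↦ hw (h h')⟩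

theorem x_lif (h1 : Pool.Agent.Helper76.PB.X_LIN) (h2 : Pool.Agent.Helper76.PB.X_INJ) :
    Pool.Agent.Helper76.PB.X_LIF := by
  classical
  intro p _ F E₁ E₂ _ _ _ _ _ _ _ _ _ _ _ _ _ _ ε hε hE1 hE2 Z hZ hab hunr hpr hprE hfree f hf hnf
    w₀ hw₀
  obtain ⟨Z', hZ', hsub, hw0', hinj⟩ := h2 p F ε hε Z hZ hab hpr w₀ hw₀.1
  choose z hz using exists_div hpr
  have hDf : (Z' \ Z).Finite := hZ'.subset Set.sdiff_subset
  set D : Finset (HeightOneSpectrum (𝓞 F)) := hDf.toFinset with hD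
  have hmem : ∀ v, v ∈ D ↔ v ∈ Z' ∧ v ∉ Z := fun v ↦ by rw [hD, Set.Finite.mem_toFinset]; rfl
  set f' : Fˣ → ZMod p := fun x ↦ f x - ∑ v ∈ D, ((ordv v (x : F) : ℤ) : ZMod p) * f (z v) with hf'
  have hhom : Hom f' := by
    intro x y
    simp only [hf']
    rw [hf.hom]
    have : ∀ v : HeightOneSpectrum (𝓞 F), ordv v ((x * y : Fˣ) : F) =
        ordv v (x : F) + ordv v (y : F) := fun v ↦ hom_ordv v x y
    simp only [this, Int.cast_add, add_mul, Finset.sum_add_distrib]
    ring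
  have hkil : Kil p Z' f' := by
    refine ⟨hhom, fun x hx ↦ ?_, fun x hx ↦ ?_⟩
    · obtain ⟨y, hy⟩ := hx
      have h3 : f x = 0 := hf.loc x ⟨y, fun w hw ↦ hy w (hsub hw)⟩
      have h4 : ∀ v ∈ D, ((ordv v (x : F) : ℤ) : ZMod p) * f (z v) = 0 := by
        intro v hv
        have h5 := (hy v ((hmem v).1 hv).1).1
        have h6 := Valuation.map_eq_of_sub_lt (v.valuation F) (x := 1) (y := (x : F) * (y : F) ^ p)
          (by rwa [map_one])
        rw [map_one] at h6
        have h7 : ordv v ((x * y ^ p : Fˣ) : F) = 0 := by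
          apply ordv_of_val
          rw [Units.val_mul, Units.val_pow_eq_pow_val]
          exact h6
        have h8 : ordv v ((x * y ^ p : Fˣ) : F) = ordv v (x : F) + p • ordv v (y : F) := by
          have e1 := hom_ordv v x (y ^ p)
          have e2 := hom_pow (hom_ordv v) y p
          simp only at e1 e2
          rw [e1, e2]
        rw [h7] at h8
        have h9 : ordv v (x : F) = -(p * ordv v (y : F)) := by
          rw [nsmul_eq_mul] at h8
          linarith
        rw [h9]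
        push_cast
        rw [CharP.cast_eq_zero]
        ring
      simp only [hf']
      rw [h3, Finset.sum_eq_zero h4, sub_zero]
    · set k : Fˣ := ∏ v ∈ D, z v ^ ordv v (x : F) with hk
      have hu : x * k⁻¹ ∈ Z.unit F := by
        refine unit_of_ordv fun w hw ↦ ?_
        have e1 := hom_ordv w x k⁻¹
        have e2 := hom_inv (hom_ordv w) k
        have e3 := hom_prod (hom_ordv w) D fun v ↦ z v ^ ordv v (x : F)
        simp only at e1 e2 e3
        rw [e1, e2, hk, e3]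
        have e4 : ∀ v ∈ D, ordv w ((z v ^ ordv v (x : F) : Fˣ) : F) =
            if w = v then ordv v (x : F) else 0 := by
          intro v _
          have e5 := hom_zpow (hom_ordv w) (z v) (ordv v (x : F))
          rw [e5, hz v w hw]
          split_ifs <;> simp
        rw [Finset.sum_congr rfl e4, Finset.sum_ite_eq]
        split_ifs with h
        · ring
        · have h3 : w ∉ Z' := fun h' ↦ h ((hmem w).2 ⟨h', hw⟩)
          rw [ordv_of_val (hx w h3)]
          ring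
      have h3 := hf.unit _ hu
      rw [hf.hom, hom_inv hf.hom, hk, hom_prod hf.hom] at h3
      have h4 : ∑ v ∈ D, f (z v ^ ordv v (x : F)) =
          ∑ v ∈ D, ((ordv v (x : F) : ℤ) : ZMod p) * f (z v) := by
        refine Finset.sum_congr rfl fun v _ ↦ ?_
        rw [hom_zpow hf.hom, zsmul_eq_mul]
      rw [h4] at h3
      simp only [hf']
      linear_combination h3
  have hnf' : ∀ y : E₂ˣ, f' (nrm F E₂ y) = 0 := by
    intro y
    simp only [hf']
    rw [hnf, zero_sub, neg_eq_zero]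
    refine Finset.sum_eq_zero fun v hv ↦ ?_
    have hvZ := ((hmem v).1 hv).2
    obtain ⟨W, hW⟩ := exists_above (E := E₂) v
    obtain ⟨k, hk⟩ := sum_orbit (F := F) W fun W' ↦ ordv W' (y : E₂)
    rw [ordv_nrm (hunr v hvZ W hW), hk]
    have h3 := dec_kill hunr hprE hf hnf hvZ hW (hz v)
    push_cast
    linear_combination (k : ZMod p) * h3
  have hV := h1 p F E₁ E₂ ε hε hE1 hE2 Z' hZ' (hab.trans hsub)
    (fun v hv ↦ hunr v fun h ↦ hv (hsub h)) (prZ_mono hsub hpr) hinj
    (prZ_mono (upZ_mono hsub) hprE) hfree f' hkil hnf' w₀ ⟨hw0', hw₀.2⟩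
  intro x hx
  have h3 := hV x fun w' hw' ↦ hx w' fun h ↦ hw' (hsub h)
  simp only [hf'] at h3
  rw [Finset.sum_eq_zero, sub_zero] at h3
  · exact h3
  · intro v hv
    obtain ⟨v1, v2⟩ := (hmem v).1 hv
    rw [(hx v v2).2 (by rintro rfl; exact hw0' v1)]
    push_cast
    ring

end Pool.Agent.Helper83.PB
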