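import Pool.Agent.Helper76.PB.GoalsF
import Pool.Agent.Helper83.REC.HRNK

/-!
# Project B (MP_fc6b1e_nt), packet PB-XRKS: the rank of the `Z`-units
-/

set_option autoImplicit false

namespace Pool.Agent.Helper83.PB

open NumberField Module IsDedekindDomain

theorem x_rks : Pool.Agent.Helper76.PB.X_RKS := by
  intro F _ _ Z hZ
  obtain ⟨h1, h2⟩ := Pool.Agent.Helper83.REC.h_rnk F Z hZ
  refine ⟨?_, h2⟩
  rw [Module.Finite.iff_addGroup_fg, ← GroupFG.iff_add_fg]
  exact h1

end Pool.Agent.Helper83.PB
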